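import Pool.Agent.Helper15_SIU.Stmts


/-!
# MP_021b97_an: module KDC

Decomposition of the Kähler form of the example into forms `Re l ∧ Im l` and of tangent vectors.
-/

set_option autoImplicit false

open MeasureTheory Filter Topology

namespace Pool.Agent.SIU.H4

/-- `1`-forms from covectors, linear -/
theorem ddc_fun {N : ℕ} (φ : (Fin N → ℂ) → ℝ) (z : Fin N → ℂ)
    (h : DifferentiableAt ℝ (fderiv ℝ φ) z) (v : Fin 2 → Fin N → ℂ) :
    ddc (fun w => cst N (φ w)) z v = fderiv ℝ (fderiv ℝ φ) z (v 1) (Complex.I • v 0) -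
      fderiv ℝ (fderiv ℝ φ) z (v 0) (Complex.I • v 1) := by
  have e1 : (fun w => (extDeriv (fun w => cst N (φ w)) w).compContinuousLinearMap
      (mulC N Complex.I)) = fun w => (ContinuousAlternatingMap.ofSubsingleton ℝ (Fin N → ℂ) ℝ
        (0 : Fin 1) ((fderiv ℝ φ w).comp (mulC N Complex.I))) := by
    funext w
    unfold cst
    rw [extDeriv_constOfIsEmpty]
    ext u
    simp
  unfold ddc
  rw [e1]
  have hd : DifferentiableAt ℝ (fun w => (ContinuousAlternatingMap.ofSubsingleton ℝ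
      (Fin N → ℂ) ℝ (0 : Fin 1) ((fderiv ℝ φ w).comp (mulC N Complex.I)))) z := by
    have h1 : DifferentiableAt ℝ (fun w => (fderiv ℝ φ w).comp (mulC N Complex.I)) z :=
      h.clm_comp (differentiableAt_const _)
    exact (ContinuousAlternatingMap.ofSubsingletonLIE (𝕜 := ℝ) (E := Fin N → ℂ) (F := ℝ)
      (0 : Fin 1)).toContinuousLinearEquiv.toContinuousLinearMap.differentiableAt.comp z h1
  rw [ContinuousAlternatingMap.neg_apply, extDeriv_apply hd]
  have e2 : ∀ x u : Fin N → ℂ, fderiv ℝ (fun w => fderiv ℝ φ w x) z u =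
      fderiv ℝ (fderiv ℝ φ) z u x := by
    intro x u
    rw [fderiv_clm_apply h (differentiableAt_const _)]
    simp
  rw [Fin.sum_univ_two]
  simp only [ContinuousAlternatingMap.ofSubsingleton_apply_apply, Fin.removeNth,
    ContinuousLinearMap.comp_apply]
  have e3 : ∀ x : Fin N → ℂ, mulC N Complex.I x = Complex.I • x := fun x => rfl
  simp only [e3, e2]
  simp
  ring

theorem w1_apply {N k : ℕ} (c : (Fin N → ℂ) →L[ℝ] ℝ) (a : Alt N k)
    (v : Fin (k + 1) → Fin N → ℂ) :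
    w1 c a v = ∑ i : Fin (k + 1), (-1 : ℝ) ^ (i : ℕ) * (c (v i) * a (i.removeNth v)) := by
  unfold w1
  rw [ContinuousAlternatingMap.alternatizeUncurryFin_apply]
  simp

theorem cc2_apply {N : ℕ} (b c : (Fin N → ℂ) →L[ℝ] ℝ) (v : Fin 2 → Fin N → ℂ) :
    cc2 b c v = b (v 0) * c (v 1) - b (v 1) * c (v 0) := by
  unfold cc2
  rw [w1_apply]
  simp only [w1_apply]
  simp [Fin.sum_univ_two, cst, Fin.removeNth]
  ring

theorem cc2_re_im {N : ℕ} (l : (Fin N → ℂ) →L[ℂ] ℂ) (v : Fin 2 → Fin N → ℂ) :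
    cc2 (reL l) (imL l) v = ((starRingEnd ℂ) (l (v 0)) * l (v 1)).im := by
  rw [cc2_apply]
  have h1 : ∀ x, reL l x = (l x).re := fun x => rfl
  have h2 : ∀ x, imL l x = (l x).im := fun x => rfl
  rw [h1, h2, h1, h2]
  simp
  ring

section log

variable {N m : ℕ} (W : Fin m → (Fin N → ℂ) → ℂ)

/-- `∑ |W_a|²` -/
noncomputable def hh (w : Fin N → ℂ) : ℝ := ∑ a, ‖W a w‖ ^ 2

/-- `∑ conj(W_a) dW_a(x)` -/
noncomputable def SS (w x : Fin N → ℂ) : ℂ := ∑ a, (starRingEnd ℂ) (W a w) * fderiv ℂ (W a) w x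

/-- `∑ conj(dW_a u) dW_a(x)` -/
noncomputable def PP (w u x : Fin N → ℂ) : ℂ :=
  ∑ a, (starRingEnd ℂ) (fderiv ℂ (W a) w u) * fderiv ℂ (W a) w x

/-- `∑ conj(W_a) D²W_a(u, x)` -/
noncomputable def QQ (w u x : Fin N → ℂ) : ℂ :=
  ∑ a, (starRingEnd ℂ) (W a w) * fderiv ℂ (fderiv ℂ (W a)) w u x

variable {W} (hW : ∀ a, ContDiff ℂ 2 (W a))

include hW

theorem hasF_W (a : Fin m) (w : Fin N → ℂ) :
    HasFDerivAt (W a) ((fderiv ℂ (W a) w).restrictScalars ℝ) w :=
  (((hW a).differentiable (by norm_num)) w).hasFDerivAt.restrictScalars ℝ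

theorem hasF_conjW (a : Fin m) (w : Fin N → ℂ) :
    HasFDerivAt (fun w => (starRingEnd ℂ) (W a w))
      (Complex.conjCLE.toContinuousLinearMap.comp ((fderiv ℂ (W a) w).restrictScalars ℝ)) w := by
  have := Complex.conjCLE.toContinuousLinearMap.hasFDerivAt.comp w (hasF_W hW a w)
  exact this

theorem hasF_dW (a : Fin m) (w x : Fin N → ℂ) :
    HasFDerivAt (fun w => fderiv ℂ (W a) w x)
      (((fderiv ℂ (fderiv ℂ (W a)) w).flip x).restrictScalars ℝ) w := by
  have h1 : DifferentiableAt ℂ (fderiv ℂ (W a)) w :=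
    (((hW a).fderiv_right (m := 1) (by norm_num)).differentiable (by norm_num)) w
  have h2 := h1.hasFDerivAt
  have h3 : HasFDerivAt (fun w => fderiv ℂ (W a) w x)
      ((fderiv ℂ (fderiv ℂ (W a)) w).flip x) w := by
    have := (ContinuousLinearMap.apply ℂ ℂ x).hasFDerivAt.comp w h2
    exact this
  exact h3.restrictScalars ℝ

theorem hasF_S (w x : Fin N → ℂ) : ∃ L : (Fin N → ℂ) →L[ℝ] ℂ,
    HasFDerivAt (fun w => SS W w x) L w ∧ ∀ u, L u = PP W w u x + QQ W w u x := by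
  have h := HasFDerivAt.fun_sum (u := Finset.univ) (fun a (_ : a ∈ Finset.univ) =>
    (hasF_conjW hW a w).mul (hasF_dW hW a w x))
  refine ⟨_, h, fun u => ?_⟩
  unfold PP QQ
  rw [← Finset.sum_add_distrib]
  simp only [sum_apply]
  refine Finset.sum_congr rfl fun a _ => ?_
  simp
  ring

theorem hasF_h (w : Fin N → ℂ) : ∃ L : (Fin N → ℂ) →L[ℝ] ℝ,
    HasFDerivAt (hh W) L w ∧ ∀ u, L u = 2 * (SS W w u).re := by
  have h := HasFDerivAt.fun_sum (u := Finset.univ) (fun a (_ : a ∈ Finset.univ) =>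
    (hasF_W hW a w).norm_sq)
  refine ⟨_, h, fun u => ?_⟩
  unfold SS
  rw [Complex.re_sum, Finset.mul_sum]
  simp only [sum_apply]
  refine Finset.sum_congr rfl fun a _ => ?_
  simp [Complex.inner]
  ring

theorem contDiff_hh : ContDiff ℝ 2 (hh W) := by
  unfold hh
  refine ContDiff.sum fun a _ => ?_
  exact (((hW a).restrict_scalars ℝ)).norm_sq ℝ

/-- first derivative of `log h` -/
theorem fderiv_log {w : Fin N → ℂ} (hw : hh W w ≠ 0) (x : Fin N → ℂ) :
    fderiv ℝ (fun w => Real.log (hh W w)) w x = (hh W w)⁻¹ * (2 * (SS W w x).re) := by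
  obtain ⟨L, hL, hL'⟩ := hasF_h hW w
  rw [(hL.log hw).fderiv]
  simp [hL']

/-- second derivative of `log h` -/
theorem fderiv2_log {z : Fin N → ℂ} (hz : hh W z ≠ 0) :
    DifferentiableAt ℝ (fderiv ℝ (fun w => Real.log (hh W w))) z ∧
    ∀ u x : Fin N → ℂ, fderiv ℝ (fderiv ℝ (fun w => Real.log (hh W w))) z u x =
      (hh W z)⁻¹ * (2 * (PP W z u x + QQ W z u x).re) -
      (hh W z)⁻¹ ^ 2 * (2 * (SS W z u).re) * (2 * (SS W z x).re) := by
  have hc : ContDiffAt ℝ 2 (fun w => Real.log (hh W w)) z :=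
    (contDiff_hh hW).contDiffAt.log hz
  have hd : DifferentiableAt ℝ (fderiv ℝ (fun w => Real.log (hh W w))) z :=
    (hc.fderiv_right (m := 1) (by norm_num)).differentiableAt (by norm_num)
  refine ⟨hd, fun u x => ?_⟩
  have e1 : fderiv ℝ (fderiv ℝ (fun w => Real.log (hh W w))) z u x =
      fderiv ℝ (fun w => fderiv ℝ (fun w => Real.log (hh W w)) w x) z u := by
    rw [fderiv_clm_apply hd (differentiableAt_const _)]
    simp
  have hne : ∀ᶠ w in 𝓝 z, hh W w ≠ 0 :=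
    (contDiff_hh hW).continuous.continuousAt.eventually_ne hz
  have e2 : (fun w => fderiv ℝ (fun w => Real.log (hh W w)) w x) =ᶠ[𝓝 z]
      fun w => (hh W w)⁻¹ * (2 * (SS W w x).re) := by
    filter_upwards [hne] with w hw
    exact fderiv_log hW hw x
  rw [e1, e2.fderiv_eq]
  obtain ⟨L, hL, hL'⟩ := hasF_h hW z
  obtain ⟨M, hM, hM'⟩ := hasF_S hW z x
  have h1 : HasFDerivAt (fun w => (hh W w)⁻¹) ((-((hh W z) ^ 2)⁻¹) • L) z := by
    have := (hasDerivAt_inv hz).comp_hasFDerivAt z hL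
    exact this
  have h2 : HasFDerivAt (fun w => (SS W w x).re) (Complex.reCLM.comp M) z :=
    Complex.reCLM.hasFDerivAt.comp z hM
  have h3 := h1.mul (h2.const_mul 2)
  have h4 := h3.fderiv
  have h5 : fderiv ℝ (fun w => (hh W w)⁻¹ * (2 * (SS W w x).re)) z = _ := h4
  rw [h5]
  simp only [add_apply, smul_apply,
    ContinuousLinearMap.comp_apply, hL', hM', smul_eq_mul, Complex.reCLM_apply]
  ring

theorem QQ_symm (w u x : Fin N → ℂ) : QQ W w u x = QQ W w x u := by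
  unfold QQ
  refine Finset.sum_congr rfl fun a _ => ?_
  have h : IsSymmSndFDerivAt ℂ (W a) w :=
    (hW a).contDiffAt.isSymmSndFDerivAt (by simp)
  rw [h.eq u x]

end log

section log2

variable {N m : ℕ} (W : Fin m → (Fin N → ℂ) → ℂ)

theorem SS_I (w x : Fin N → ℂ) : SS W w (Complex.I • x) = Complex.I * SS W w x := by
  unfold SS
  rw [Finset.mul_sum]
  refine Finset.sum_congr rfl fun a _ => ?_
  rw [map_smul, smul_eq_mul]; ring

theorem PP_I (w u x : Fin N → ℂ) : PP W w u (Complex.I • x) = Complex.I * PP W w u x := by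
  unfold PP
  rw [Finset.mul_sum]
  refine Finset.sum_congr rfl fun a _ => ?_
  rw [map_smul, smul_eq_mul]; ring

theorem QQ_I (w u x : Fin N → ℂ) : QQ W w u (Complex.I • x) = Complex.I * QQ W w u x := by
  unfold QQ
  rw [Finset.mul_sum]
  refine Finset.sum_congr rfl fun a _ => ?_
  rw [map_smul, smul_eq_mul]; ring

theorem PP_symm (w u x : Fin N → ℂ) : PP W w x u = (starRingEnd ℂ) (PP W w u x) := by
  unfold PP
  rw [map_sum]
  refine Finset.sum_congr rfl fun a _ => ?_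
  rw [map_mul, Complex.conj_conj]; ring

variable {W} (hW : ∀ a, ContDiff ℂ 2 (W a))

include hW

theorem ddc_log {z : Fin N → ℂ} (hz : hh W z ≠ 0) (v : Fin 2 → Fin N → ℂ) :
    ddc (fun w => cst N (Real.log (hh W w))) z v =
      4 * ((hh W z)⁻¹ * (PP W z (v 0) (v 1)).im -
        (hh W z)⁻¹ ^ 2 * ((starRingEnd ℂ) (SS W z (v 0)) * SS W z (v 1)).im) := by
  obtain ⟨hd, he⟩ := fderiv2_log hW hz
  rw [ddc_fun _ z hd, he, he, PP_I, PP_I, QQ_I, QQ_I, SS_I, SS_I, PP_symm W z (v 0) (v 1),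
    QQ_symm hW z (v 1) (v 0)]
  simp
  ring

end log2

/-- coordinates of the base -/
noncomputable def WL : Fin 2 → E7 → ℂ := ![fun z => z 0, fun z => z 1]
/-- coordinates of the last factor -/
noncomputable def WY : Fin 2 → E7 → ℂ := ![fun z => z 5, fun z => z 6]
/-- sections of the second line bundle -/
noncomputable def WH : Fin 5 → E7 → ℂ :=
  ![fun z => z 0 * z 2, fun z => z 0 * z 3, fun z => z 1 * z 2, fun z => z 1 * z 3, fun z => z 4]

theorem contDiff_WL (a : Fin 2) : ContDiff ℂ 2 (WL a) := by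
  fin_cases a
  · exact contDiff_apply ℂ ℂ (0 : Fin 7)
  · exact contDiff_apply ℂ ℂ (1 : Fin 7)

theorem contDiff_WY (a : Fin 2) : ContDiff ℂ 2 (WY a) := by
  fin_cases a
  · exact contDiff_apply ℂ ℂ (5 : Fin 7)
  · exact contDiff_apply ℂ ℂ (6 : Fin 7)

theorem contDiff_WH (a : Fin 5) : ContDiff ℂ 2 (WH a) := by
  have h : ∀ j : Fin 7, ContDiff ℂ 2 (fun z : E7 => z j) := fun j => contDiff_apply ℂ ℂ j
  fin_cases a
  · exact (h 0).mul (h 2)
  · exact (h 0).mul (h 3)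
  · exact (h 1).mul (h 2)
  · exact (h 1).mul (h 3)
  · exact h 4

theorem hh_WL : hh WL = AA := by
  funext z
  simp [hh, WL, AA, Fin.sum_univ_two]

theorem hh_WY : hh WY = YY := by
  funext z
  simp [hh, WY, YY, Fin.sum_univ_two]

theorem hh_WH : hh WH = DD := by
  funext z
  simp [hh, WH, DD, Fin.sum_univ_five]
  ring

theorem fderiv_coord (j : Fin 7) (z v : E7) : fderiv ℂ (fun z : E7 => z j) z v = v j := by
  have h : HasFDerivAt (fun z : E7 => z j)
      (ContinuousLinearMap.proj (R := ℂ) (φ := fun _ : Fin 7 => ℂ) j) z :=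
    (ContinuousLinearMap.proj (R := ℂ) (φ := fun _ : Fin 7 => ℂ) j).hasFDerivAt
  rw [h.fderiv]
  rfl

theorem fderiv_coord2 (i j : Fin 7) (z v : E7) :
    fderiv ℂ (fun z : E7 => z i * z j) z v = v i * z j + z i * v j := by
  have h : ∀ j : Fin 7, HasFDerivAt (fun z : E7 => z j)
      (ContinuousLinearMap.proj (R := ℂ) (φ := fun _ : Fin 7 => ℂ) j) z := fun j =>
    (ContinuousLinearMap.proj (R := ℂ) (φ := fun _ : Fin 7 => ℂ) j).hasFDerivAt
  rw [((h i).fun_mul (h j)).fderiv]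
  simp
  ring

theorem dWL (z v : E7) : (fun a => fderiv ℂ (WL a) z v) = ![v 0, v 1] := by
  funext a
  fin_cases a
  · exact fderiv_coord 0 z v
  · exact fderiv_coord 1 z v

theorem dWY (z v : E7) : (fun a => fderiv ℂ (WY a) z v) = ![v 5, v 6] := by
  funext a
  fin_cases a
  · exact fderiv_coord 5 z v
  · exact fderiv_coord 6 z v

theorem dWH (z v : E7) : (fun a => fderiv ℂ (WH a) z v) =
    ![v 0 * z 2 + z 0 * v 2, v 0 * z 3 + z 0 * v 3, v 1 * z 2 + z 1 * v 2,
      v 1 * z 3 + z 1 * v 3, v 4] := by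
  funext a
  fin_cases a
  · exact fderiv_coord2 0 2 z v
  · exact fderiv_coord2 0 3 z v
  · exact fderiv_coord2 1 2 z v
  · exact fderiv_coord2 1 3 z v
  · exact fderiv_coord 4 z v

/-! ## The functionals -/

/-- `l_ab = (w_a dw_b - w_b dw_a) / h` -/
noncomputable def ll {m : ℕ} (W : Fin m → E7 → ℂ) (a b : Fin m) (z : E7) : E7 →L[ℂ] ℂ :=
  ((hh W z : ℝ) : ℂ)⁻¹ • (W a z • fderiv ℂ (W b) z - W b z • fderiv ℂ (W a) z)

theorem ll_apply {m : ℕ} (W : Fin m → E7 → ℂ) (a b : Fin m) (z v : E7) :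
    ll W a b z v = ((hh W z : ℝ) : ℂ)⁻¹ *
      (W a z * fderiv ℂ (W b) z v - W b z * fderiv ℂ (W a) z v) := by
  simp [ll]

theorem hh_complex {m : ℕ} (W : Fin m → E7 → ℂ) (z : E7) :
    ((hh W z : ℝ) : ℂ) = ∑ a, (starRingEnd ℂ) (W a z) * W a z := by
  unfold hh
  rw [Complex.ofReal_sum]
  refine Finset.sum_congr rfl fun a _ => ?_
  rw [mul_comm, Complex.mul_conj, Complex.normSq_eq_norm_sq]

theorem im_ll {m : ℕ} (W : Fin m → E7 → ℂ) (a b : Fin m) (z u v : E7) :
    ((starRingEnd ℂ) (ll W a b z u) * ll W a b z v).im =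
      (hh W z)⁻¹ ^ 2 * ((starRingEnd ℂ) (W a z * fderiv ℂ (W b) z u -
        W b z * fderiv ℂ (W a) z u) * (W a z * fderiv ℂ (W b) z v -
        W b z * fderiv ℂ (W a) z v)).im := by
  rw [ll_apply, ll_apply, map_mul, map_inv₀, Complex.conj_ofReal, ← Complex.ofReal_inv]
  rw [show ∀ r : ℝ, ∀ x y : ℂ, (r : ℂ) * x * ((r : ℂ) * y) = ((r ^ 2 : ℝ) : ℂ) * (x * y) by
    intro r x y; push_cast; ring]
  rw [Complex.im_ofReal_mul]

/-- Lagrange identity, 2 variables -/
theorem lag2 (w w' x y : Fin 2 → ℂ) :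
    (∑ a, w' a * w a) * (∑ a, x a * y a) - (∑ a, w a * x a) * (∑ a, w' a * y a) =
      (w' 0 * x 1 - w' 1 * x 0) * (w 0 * y 1 - w 1 * y 0) := by
  simp only [Fin.sum_univ_two]
  ring

/-- first index of the pair -/
def pA : Fin 10 → Fin 5 := ![0, 0, 0, 0, 1, 1, 1, 2, 2, 3]
/-- second index of the pair -/
def pB : Fin 10 → Fin 5 := ![1, 2, 3, 4, 2, 3, 4, 3, 4, 4]

/-- Lagrange identity, 5 variables -/
theorem lag5 (w w' x y : Fin 5 → ℂ) :
    (∑ a, w' a * w a) * (∑ a, x a * y a) - (∑ a, w a * x a) * (∑ a, w' a * y a) =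
      ∑ k, (w' (pA k) * x (pB k) - w' (pB k) * x (pA k)) *
        (w (pA k) * y (pB k) - w (pB k) * y (pA k)) := by
  simp only [Fin.sum_univ_five, Fin.sum_univ_succ (n := 9), Fin.sum_univ_succ (n := 8),
    Fin.sum_univ_succ (n := 7), Fin.sum_univ_succ (n := 6), Fin.sum_univ_succ (n := 5)]
  simp [pA, pB]
  ring

theorem key_im {h : ℝ} (hne : h ≠ 0) (P T : ℂ) :
    h⁻¹ * P.im - h⁻¹ ^ 2 * T.im = h⁻¹ ^ 2 * ((h : ℂ) * P - T).im := by
  rw [Complex.sub_im, Complex.im_ofReal_mul]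
  field_simp

theorem conj_SS {m : ℕ} (W : Fin m → E7 → ℂ) (z u : E7) :
    (starRingEnd ℂ) (SS W z u) = ∑ a, W a z * (starRingEnd ℂ) (fderiv ℂ (W a) z u) := by
  unfold SS
  rw [map_sum]
  refine Finset.sum_congr rfl fun a _ => ?_
  rw [map_mul, Complex.conj_conj]

theorem ddc_two (W : Fin 2 → E7 → ℂ) (hW : ∀ a, ContDiff ℂ 2 (W a)) {z : E7}
    (hz : hh W z ≠ 0) :
    ddc (fun w => cst 7 (Real.log (hh W w))) z =
      (4 : ℝ) • cc2 (reL (ll W 0 1 z)) (imL (ll W 0 1 z)) := by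
  apply ContinuousAlternatingMap.ext
  intro v
  rw [ddc_log hW hz, ContinuousAlternatingMap.smul_apply, cc2_re_im, im_ll, smul_eq_mul,
    key_im hz]
  congr 2
  have h := lag2 (fun a => W a z) (fun a => (starRingEnd ℂ) (W a z))
    (fun a => (starRingEnd ℂ) (fderiv ℂ (W a) z (v 0))) (fun a => fderiv ℂ (W a) z (v 1))
  rw [← hh_complex, ← conj_SS] at h
  have h' : ((hh W z : ℝ) : ℂ) * PP W z (v 0) (v 1) -
      (starRingEnd ℂ) (SS W z (v 0)) * SS W z (v 1) = _ := h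
  rw [h']
  simp

theorem ddc_five (W : Fin 5 → E7 → ℂ) (hW : ∀ a, ContDiff ℂ 2 (W a)) {z : E7}
    (hz : hh W z ≠ 0) :
    ddc (fun w => cst 7 (Real.log (hh W w))) z =
      (4 : ℝ) • ∑ k, cc2 (reL (ll W (pA k) (pB k) z)) (imL (ll W (pA k) (pB k) z)) := by
  apply ContinuousAlternatingMap.ext
  intro v
  rw [ddc_log hW hz, ContinuousAlternatingMap.smul_apply, ContinuousAlternatingMap.sum_apply,
    smul_eq_mul, key_im hz]
  congr 1
  simp only [cc2_re_im, im_ll]
  rw [← Finset.mul_sum]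
  congr 1
  rw [← Complex.im_sum]
  congr 1
  have h := lag5 (fun a => W a z) (fun a => (starRingEnd ℂ) (W a z))
    (fun a => (starRingEnd ℂ) (fderiv ℂ (W a) z (v 0))) (fun a => fderiv ℂ (W a) z (v 1))
  rw [← hh_complex, ← conj_SS] at h
  have h' : ((hh W z : ℝ) : ℂ) * PP W z (v 0) (v 1) -
      (starRingEnd ℂ) (SS W z (v 0)) * SS W z (v 1) = _ := h
  rw [h']
  refine Finset.sum_congr rfl fun k _ => ?_
  simp

theorem ddc_add {N : ℕ} {φ ψ : (Fin N → ℂ) → ℝ} {z : Fin N → ℂ} (h1 : ContDiffAt ℝ 2 φ z)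
    (h2 : ContDiffAt ℝ 2 ψ z) : ddc (fun w => cst N (φ w + ψ w)) z =
      ddc (fun w => cst N (φ w)) z + ddc (fun w => cst N (ψ w)) z := by
  have hd : ∀ {φ : (Fin N → ℂ) → ℝ}, ContDiffAt ℝ 2 φ z → DifferentiableAt ℝ (fderiv ℝ φ) z :=
    fun h => (h.fderiv_right (m := 1) (by norm_num)).differentiableAt (by norm_num)
  have he : fderiv ℝ (fun w => φ w + ψ w) =ᶠ[𝓝 z] fun w => fderiv ℝ φ w + fderiv ℝ ψ w := by
    filter_upwards [h1.eventually (by norm_num), h2.eventually (by norm_num)] with w hw1 hw2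
    exact fderiv_fun_add (hw1.differentiableAt (by norm_num)) (hw2.differentiableAt (by norm_num))
  apply ContinuousAlternatingMap.ext
  intro v
  rw [ContinuousAlternatingMap.add_apply, ddc_fun _ z (hd h1), ddc_fun _ z (hd h2),
    ddc_fun _ z (hd (h1.add h2)), he.fderiv_eq, fderiv_fun_add (hd h1) (hd h2)]
  simp
  ring

theorem cd_log {m : ℕ} (W : Fin m → E7 → ℂ) (hW : ∀ a, ContDiff ℂ 2 (W a)) {z : E7}
    (hz : hh W z ≠ 0) : ContDiffAt ℝ 2 (fun w => Real.log (hh W w)) z :=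
  (contDiff_hh hW).contDiffAt.log hz

theorem kL_eq {z : E7} (hz : z ∈ X2.U) :
    kL z = (4 : ℝ) • cc2 (reL (ll WL 0 1 z)) (imL (ll WL 0 1 z)) := by
  have h := ddc_two WL contDiff_WL (z := z) (by rw [hh_WL]; exact (AA_pos hz).ne')
  rw [hh_WL] at h
  exact h

theorem kY_eq {z : E7} (hz : z ∈ X2.U) :
    kY z = (4 : ℝ) • cc2 (reL (ll WY 0 1 z)) (imL (ll WY 0 1 z)) := by
  have h := ddc_two WY contDiff_WY (z := z) (by rw [hh_WY]; exact (YY_pos hz).ne')
  rw [hh_WY] at h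
  exact h

theorem kH_eq {z : E7} (hz : z ∈ X2.U) :
    kH z = (4 : ℝ) • ∑ k, cc2 (reL (ll WH (pA k) (pB k) z)) (imL (ll WH (pA k) (pB k) z)) := by
  have h := ddc_five WH contDiff_WH (z := z) (by rw [hh_WH]; exact (DD_pos hz).ne')
  rw [hh_WH] at h
  exact h

theorem kahler_eq {z : E7} (hz : z ∈ X2.U) : X2.kahler z = kL z + kH z + kY z := by
  have e : (fun w => cst 7 (∑ j, Real.log (X2.A j w))) =
      fun w => cst 7 ((Real.log (AA w) + Real.log (DD w)) + Real.log (YY w)) := by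
    funext w
    rw [Fin.sum_univ_three]
    rfl
  have hA := cd_log WL contDiff_WL (z := z) (by rw [hh_WL]; exact (AA_pos hz).ne')
  have hD := cd_log WH contDiff_WH (z := z) (by rw [hh_WH]; exact (DD_pos hz).ne')
  have hY := cd_log WY contDiff_WY (z := z) (by rw [hh_WY]; exact (YY_pos hz).ne')
  rw [hh_WL] at hA
  rw [hh_WH] at hD
  rw [hh_WY] at hY
  unfold Toric.kahler kL kH kY
  rw [e, ddc_add (hA.add hD) hY, ddc_add hA hD]

/-- lift of vectors of `ℂ⁵` -/
noncomputable def MM (z : E7) (x : Fin 5 → ℂ) : E7 :=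
  ![0, 0, ((starRingEnd ℂ) (z 0) * x 0 + (starRingEnd ℂ) (z 1) * x 2) / (AA z : ℂ),
    ((starRingEnd ℂ) (z 0) * x 1 + (starRingEnd ℂ) (z 1) * x 3) / (AA z : ℂ), x 4, 0, 0]

theorem MM_add (z : E7) (x y : Fin 5 → ℂ) : MM z (x + y) = MM z x + MM z y := by
  funext m
  fin_cases m <;> simp [MM] <;> ring

theorem MM_smul (z : E7) (t : ℂ) (x : Fin 5 → ℂ) : MM z (t • x) = t • MM z x := by
  funext m
  fin_cases m <;> simp [MM] <;> ring

theorem MM_sum {ι : Type} (s : Finset ι) (z : E7) (t : ι → ℂ) (x : ι → Fin 5 → ℂ) :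
    ∑ i ∈ s, t i • MM z (x i) = MM z (∑ i ∈ s, t i • x i) := by
  classical
  induction s using Finset.induction_on with
  | empty =>
    simp only [Finset.sum_empty]
    funext m
    fin_cases m <;> simp [MM]
  | insert i s his ih =>
    rw [Finset.sum_insert his, Finset.sum_insert his, MM_add, MM_smul, ih]

/-- the vector `conj(w_a) ε_b - conj(w_b) ε_a` -/
noncomputable def eab (w' : Fin 5 → ℂ) (a b : Fin 5) : Fin 5 → ℂ :=
  w' a • (Pi.single b 1 : Fin 5 → ℂ) - w' b • (Pi.single a 1 : Fin 5 → ℂ)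

theorem eab_sum (w w' y : Fin 5 → ℂ) :
    ∑ k, (w (pA k) * y (pB k) - w (pB k) * y (pA k)) • eab w' (pA k) (pB k) =
      (∑ a, w' a * w a) • y - (∑ a, w' a * y a) • w := by
  simp only [Fin.sum_univ_five, Fin.sum_univ_succ (n := 9), Fin.sum_univ_succ (n := 8),
    Fin.sum_univ_succ (n := 7), Fin.sum_univ_succ (n := 6), Fin.sum_univ_succ (n := 5)]
  funext c
  fin_cases c <;> simp [pA, pB, eab, Pi.single_apply] <;> ring

/-- the index set -/
abbrev II : Type := Option (Option (Fin 10))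

/-- the functionals -/
noncomputable def lI : II → E7 → E7 →L[ℂ] ℂ
  | none => ll WL 0 1
  | some none => ll WY 0 1
  | some (some k) => ll WH (pA k) (pB k)

/-- the vectors -/
noncomputable def nI : II → E7 → E7
  | none => fun z => ![-(starRingEnd ℂ) (z 1), (starRingEnd ℂ) (z 0), 0, 0, 0, 0, 0]
  | some none => fun z => ![0, 0, 0, 0, 0, -(starRingEnd ℂ) (z 6), (starRingEnd ℂ) (z 5)]
  | some (some k) => fun z => MM z (eab (fun a => (starRingEnd ℂ) (WH a z)) (pA k) (pB k))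

theorem AA_complex (z : E7) : ((AA z : ℝ) : ℂ) =
    (starRingEnd ℂ) (z 0) * z 0 + (starRingEnd ℂ) (z 1) * z 1 := by
  rw [← hh_WL, hh_complex, Fin.sum_univ_two]
  rfl

theorem YY_complex (z : E7) : ((YY z : ℝ) : ℂ) =
    (starRingEnd ℂ) (z 5) * z 5 + (starRingEnd ℂ) (z 6) * z 6 := by
  rw [← hh_WY, hh_complex, Fin.sum_univ_two]
  rfl

theorem sumH {z : E7} (hz : z ∈ X2.U) (v : E7) :
    ∑ k, lI (some (some k)) z v • nI (some (some k)) z =
      MM z ((fun a => fderiv ℂ (WH a) z v) - (((DD z : ℝ) : ℂ)⁻¹ * SS WH z v) •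
        (fun a => WH a z)) := by
  have hD : ((DD z : ℝ) : ℂ) ≠ 0 := by exact_mod_cast (DD_pos hz).ne'
  have e1 : ∀ k, lI (some (some k)) z v • nI (some (some k)) z =
      (ll WH (pA k) (pB k) z v) •
        MM z (eab (fun a => (starRingEnd ℂ) (WH a z)) (pA k) (pB k)) := fun k => rfl
  simp only [e1, MM_sum, ll_apply, hh_WH]
  congr 1
  have h := eab_sum (fun a => WH a z) (fun a => (starRingEnd ℂ) (WH a z))
    (fun a => fderiv ℂ (WH a) z v)
  rw [← hh_complex, hh_WH] at h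
  have h2 : ∑ k, (((DD z : ℝ) : ℂ)⁻¹ * (WH (pA k) z * fderiv ℂ (WH (pB k)) z v -
      WH (pB k) z * fderiv ℂ (WH (pA k)) z v)) •
        eab (fun a => (starRingEnd ℂ) (WH a z)) (pA k) (pB k) =
      ((DD z : ℝ) : ℂ)⁻¹ • ∑ k, (WH (pA k) z * fderiv ℂ (WH (pB k)) z v -
      WH (pB k) z * fderiv ℂ (WH (pA k)) z v) •
        eab (fun a => (starRingEnd ℂ) (WH a z)) (pA k) (pB k) := by
    rw [Finset.smul_sum]
    refine Finset.sum_congr rfl fun k _ => ?_
    rw [mul_smul]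
  rw [h2, h, smul_sub, smul_smul, smul_smul, inv_mul_cancel₀ hD, one_smul]
  rfl

theorem vert_sub {z : E7} (hz : z ∈ X2.U) (v : E7) :
    X2.Vert z (v - ∑ i, lI i z v • nI i z) := by
  have hA : ((AA z : ℝ) : ℂ) ≠ 0 := by exact_mod_cast (AA_pos hz).ne'
  have hY : ((YY z : ℝ) : ℂ) ≠ 0 := by exact_mod_cast (YY_pos hz).ne'
  have hA' := AA_complex z
  have hY' := YY_complex z
  rw [Fintype.sum_option, Fintype.sum_option, sumH hz v]
  have hL : lI none z v = ((AA z : ℝ) : ℂ)⁻¹ * (z 0 * v 1 - z 1 * v 0) := by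
    have h := ll_apply WL 0 1 z v
    have h0 := congrFun (dWL z v) 0
    have h1 := congrFun (dWL z v) 1
    rw [hh_WL] at h
    simp only [Matrix.cons_val_zero, Matrix.cons_val_one] at h0 h1
    rw [h0, h1] at h
    exact h
  have hY1 : lI (some none) z v = ((YY z : ℝ) : ℂ)⁻¹ * (z 5 * v 6 - z 6 * v 5) := by
    have h := ll_apply WY 0 1 z v
    have h0 := congrFun (dWY z v) 0
    have h1 := congrFun (dWY z v) 1
    rw [hh_WY] at h
    simp only [Matrix.cons_val_zero, Matrix.cons_val_one] at h0 h1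
    rw [h0, h1] at h
    exact h
  rw [hL, hY1, dWH]
  rw [vert_iff]
  set α : ℂ := ((AA z : ℝ) : ℂ)⁻¹ * ((starRingEnd ℂ) (z 0) * v 0 + (starRingEnd ℂ) (z 1) * v 1)
    with hα
  set γ : ℂ := ((DD z : ℝ) : ℂ)⁻¹ * SS WH z v with hγ
  refine ⟨α, γ, ((YY z : ℝ) : ℂ)⁻¹ * ((starRingEnd ℂ) (z 5) * v 5 +
    (starRingEnd ℂ) (z 6) * v 6), ?_⟩
  have hL0 : ∀ a b : ℂ, ((AA z : ℝ) : ℂ)⁻¹ * (((AA z : ℝ) : ℂ) * a) = a := fun a b => by
    rw [inv_mul_cancel_left₀ hA]
  funext m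
  fin_cases m
  · simp [nI, MM]
    rw [hα]
    field_simp
    rw [hA']
    ring
  · simp [nI, MM]
    rw [hα]
    field_simp
    rw [hA']
    ring
  · simp [nI, MM, WH]
    rw [hα]
    field_simp
    rw [hA']
    ring
  · simp [nI, MM, WH]
    rw [hα]
    field_simp
    rw [hA']
    ring
  · simp [nI, MM, WH]
  · simp [nI, MM]
    field_simp
    rw [hY']
    ring
  · simp [nI, MM]
    field_simp
    rw [hY']
    ring

theorem unimod {c : ℂ} (hc : c ≠ 0) : ‖c / (starRingEnd ℂ) c‖ = 1 := by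
  rw [norm_div, RCLike.norm_conj]
  exact div_self (norm_ne_zero_iff.mpr hc)

theorem WH_act {c : Fin 3 → ℂ} (hc : ∀ j, c j ≠ 0) (z : E7) (a : Fin 5) :
    WH a (X2.act c z) = c 1 * WH a z := by
  have h0 := hc 0
  rw [act_eq]
  fin_cases a <;> simp [WH] <;> field_simp

theorem nI_act {c : Fin 3 → ℂ} (hc : ∀ j, c j ≠ 0) {z : E7} (hz : z ∈ X2.U) (i : II) :
    ∃ ζ : ℂ, ‖ζ‖ = 1 ∧ X2.act c (nI i z) = ζ • nI i (X2.act c z) := by
  have h0 := hc 0
  have h1 := hc 1
  have h2 := hc 2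
  have g0 : (starRingEnd ℂ) (c 0) ≠ 0 := (map_ne_zero _).mpr h0
  have g1 : (starRingEnd ℂ) (c 1) ≠ 0 := (map_ne_zero _).mpr h1
  have g2 : (starRingEnd ℂ) (c 2) ≠ 0 := (map_ne_zero _).mpr h2
  have hA : ((AA z : ℝ) : ℂ) ≠ 0 := by exact_mod_cast (AA_pos hz).ne'
  rcases i with _ | _ | k
  · refine ⟨c 0 / (starRingEnd ℂ) (c 0), unimod h0, ?_⟩
    rw [act_eq c z, act_eq]
    funext m
    fin_cases m <;> simp [nI] <;> field_simp
  · refine ⟨c 2 / (starRingEnd ℂ) (c 2), unimod h2, ?_⟩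
    rw [act_eq c z, act_eq]
    funext m
    fin_cases m <;> simp [nI] <;> field_simp
  · refine ⟨c 1 / (starRingEnd ℂ) (c 1), unimod h1, ?_⟩
    have e1 : nI (some (some k)) (X2.act c z) = MM (X2.act c z) ((starRingEnd ℂ) (c 1) •
        eab (fun a => (starRingEnd ℂ) (WH a z)) (pA k) (pB k)) := by
      show MM (X2.act c z) (eab (fun a => (starRingEnd ℂ) (WH a (X2.act c z))) (pA k) (pB k)) = _
      congr 1
      simp only [WH_act hc, map_mul]
      unfold eab
      rw [smul_sub, smul_smul, smul_smul]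
    rw [e1]
    show X2.act c (MM z (eab (fun a => (starRingEnd ℂ) (WH a z)) (pA k) (pB k))) = _
    generalize eab (fun a => (starRingEnd ℂ) (WH a z)) (pA k) (pB k) = x
    have e2 : ((AA (X2.act c z) : ℝ) : ℂ) = c 0 * (starRingEnd ℂ) (c 0) * ((AA z : ℝ) : ℂ) := by
      rw [AA_act, Complex.mul_conj, Complex.normSq_eq_norm_sq]
      push_cast
      ring
    rw [MM_smul, smul_smul, div_mul_cancel₀ _ g1]
    unfold MM
    rw [e2, act_eq c z, act_eq]
    funext m
    fin_cases m <;> simp <;> field_simp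

theorem cont_nI (i : II) : ContinuousOn (nI i) X2.U := by
  have hc : ∀ j : Fin 7, Continuous fun z : E7 => (starRingEnd ℂ) (z j) := fun j =>
    Complex.continuous_conj.comp (continuous_apply j)
  have hj : ∀ j : Fin 7, Continuous fun z : E7 => z j := fun j => continuous_apply j
  rcases i with _ | _ | k
  · apply Continuous.continuousOn
    apply continuous_pi
    intro m
    fin_cases m <;> simp [nI] <;> fun_prop
  · apply Continuous.continuousOn
    apply continuous_pi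
    intro m
    fin_cases m <;> simp [nI] <;> fun_prop
  · have hW : ∀ a, Continuous (WH a) := fun a => (contDiff_WH a).continuous
    have he : Continuous fun z : E7 => eab (fun a => (starRingEnd ℂ) (WH a z)) (pA k) (pB k) := by
      unfold eab
      exact (((Complex.continuous_conj.comp (hW _)).smul continuous_const)).sub
        ((Complex.continuous_conj.comp (hW _)).smul continuous_const)
    have he' : ∀ j : Fin 5, Continuous fun z : E7 =>
        eab (fun a => (starRingEnd ℂ) (WH a z)) (pA k) (pB k) j := fun j =>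
      (continuous_apply j).comp he
    have hA : Continuous fun z : E7 => ((AA z : ℝ) : ℂ) :=
      Complex.continuous_ofReal.comp continuous_AA
    have hA' : ∀ z ∈ X2.U, ((AA z : ℝ) : ℂ) ≠ 0 := fun z hz => by
      exact_mod_cast (AA_pos hz).ne'
    apply continuousOn_pi.mpr
    intro m
    fin_cases m <;> simp [nI, MM]
    · exact continuousOn_const
    · exact continuousOn_const
    · exact ((((hc 0).mul (he' 0)).add ((hc 1).mul (he' 2))).continuousOn).div hA.continuousOn hA'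
    · exact ((((hc 0).mul (he' 1)).add ((hc 1).mul (he' 3))).continuousOn).div hA.continuousOn hA'
    · exact (he' 4).continuousOn
    · exact continuousOn_const
    · exact continuousOn_const

theorem bd_nI (h : BsdStmt) {f : E7 → ℝ} (hf : InvFn f) (i : II) : ∃ C : ℝ, ∀ z ∈ X2.U,
    ∀ u : ℂ, |fderiv ℝ f z (u • nI i z)| ≤ C * ‖u‖ := by
  have hdf : DifferentiableOn ℝ f X2.U := hf.1.differentiableOn (by simp)
  obtain ⟨hinv, -⟩ := (h 7 3 4 X2 X2.U isOpen_U (fun w hw c hc => (act_mem_U hc w).mpr hw)).2.1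
    f hdf hf.2
  have hc1 : ContinuousOn (fderiv ℝ f) X2.U := hf.1.continuousOn_fderiv_of_isOpen isOpen_U
    (by simp)
  have hc2 : ContinuousOn (fun z => ‖fderiv ℝ f z‖ * ‖nI i z‖) X2.U :=
    hc1.norm.mul (cont_nI i).norm
  obtain ⟨C, hC⟩ := isCompact_Shell.exists_bound_of_continuousOn (hc2.mono Shell_subset)
  refine ⟨C, fun z hz u => ?_⟩
  obtain ⟨c, hc, -, -, -, hS⟩ := exists_act_normal hz
  obtain ⟨ζ, hζ, he⟩ := nI_act hc hz i
  have e1 : X2.act c (u • nI i z) = (u * ζ) • nI i (X2.act c z) := by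
    rw [← actL_apply, map_smul, actL_apply, he, smul_smul]
  rw [← hinv z hz c hc, e1]
  have e2 := (fderiv ℝ f (X2.act c z)).le_opNorm ((u * ζ) • nI i (X2.act c z))
  have e3 := hC _ hS
  rw [Real.norm_of_nonneg (by positivity)] at e3
  rw [Real.norm_eq_abs, norm_smul, norm_mul, hζ, mul_one] at e2
  calc _ ≤ _ := e2
    _ = (‖fderiv ℝ f (X2.act c z)‖ * ‖nI i (X2.act c z)‖) * ‖u‖ := by ring
    _ ≤ C * ‖u‖ := mul_le_mul_of_nonneg_right e3 (norm_nonneg _)

theorem kdc (h : BsdStmt) : KdcStmt := by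
  let e : II ≃ Fin (Fintype.card II) := Fintype.equivFin II
  refine ⟨Fintype.card II, fun i => lI (e.symm i), fun i => nI (e.symm i), e none,
    e (some none), ?_, ?_, ?_, ?_, ?_⟩
  · intro z hz
    rw [kahler_eq hz, kL_eq hz, kY_eq hz, kH_eq hz]
    rw [Equiv.sum_comp e.symm (fun i => cc2 (reL (lI i z)) (imL (lI i z)))]
    rw [Fintype.sum_option, Fintype.sum_option, smul_add, smul_add]
    show _ = (4 : ℝ) • cc2 (reL (ll WL 0 1 z)) (imL (ll WL 0 1 z)) +
      ((4 : ℝ) • cc2 (reL (ll WY 0 1 z)) (imL (ll WY 0 1 z)) +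
      (4 : ℝ) • ∑ k, cc2 (reL (ll WH (pA k) (pB k) z)) (imL (ll WH (pA k) (pB k) z)))
    abel
  · intro z hz
    rw [kL_eq hz]
    simp only [Equiv.symm_apply_apply]
    rfl
  · intro z hz
    rw [kY_eq hz]
    simp only [Equiv.symm_apply_apply]
    rfl
  · intro z hz v
    rw [Equiv.sum_comp e.symm (fun i => lI i z v • nI i z)]
    exact vert_sub hz v
  · intro f hf
    choose C hC using bd_nI h hf
    refine ⟨∑ i, |C i|, fun z hz i u => ?_⟩
    have h1 := hC (e.symm i) z hz u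
    have h2 : |C (e.symm i)| ≤ ∑ i, |C i| :=
      Finset.single_le_sum (f := fun i => |C i|) (fun j _ => abs_nonneg _)
        (Finset.mem_univ (e.symm i))
    exact h1.trans (mul_le_mul_of_nonneg_right ((le_abs_self _).trans h2) (norm_nonneg _))

end Pool.Agent.SIU.H4
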