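import Pool.Agent.Helper15_SIU.Stmts

/-!
# MP_021b97_an: module SFT, the soft argument
-/

set_option autoImplicit false

open MeasureTheory Filter Topology

namespace Pool.Agent.SIU.H4S

/-! ## Polynomial functions on the sphere are invariant -/

theorem inv_xx (i : Fin 3) : InvFn (xx i) := by
  have hj : ∀ j : Fin 7, ContDiff ℝ ((⊤ : ℕ∞) : WithTop ℕ∞) (fun z : E7 => z j) := fun j =>
    contDiff_apply ℝ ℂ j
  have hA : ContDiff ℝ ((⊤ : ℕ∞) : WithTop ℕ∞) AA := by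
    unfold AA
    exact ((hj 0).norm_sq ℝ).add ((hj 1).norm_sq ℝ)
  have hA0 : ∀ z ∈ X2.U, AA z ≠ 0 := fun z hz => (AA_pos hz).ne'
  have hP : ContDiff ℝ ((⊤ : ℕ∞) : WithTop ℕ∞) (fun z : E7 => z 0 * (starRingEnd ℂ) (z 1)) :=
    (hj 0).mul (Complex.conjCLE.toContinuousLinearMap.contDiff.comp (hj 1))
  have hre : ContDiff ℝ ((⊤ : ℕ∞) : WithTop ℕ∞)
      (fun z : E7 => 2 * (z 0 * (starRingEnd ℂ) (z 1)).re) :=
    contDiff_const.mul (Complex.reCLM.contDiff.comp hP)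
  have him : ContDiff ℝ ((⊤ : ℕ∞) : WithTop ℕ∞)
      (fun z : E7 => 2 * (z 0 * (starRingEnd ℂ) (z 1)).im) :=
    contDiff_const.mul (Complex.imCLM.contDiff.comp hP)
  have h3 : ContDiff ℝ ((⊤ : ℕ∞) : WithTop ℕ∞) (fun z : E7 => ‖z 1‖ ^ 2 - ‖z 0‖ ^ 2) :=
    ((hj 1).norm_sq ℝ).sub ((hj 0).norm_sq ℝ)
  have key : ∀ (c : Fin 3 → ℂ) (z : E7), (X2.act c z) 0 * (starRingEnd ℂ) ((X2.act c z) 1) =
      ((‖c 0‖ ^ 2 : ℝ) : ℂ) * (z 0 * (starRingEnd ℂ) (z 1)) := by
    intro c z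
    rw [act_eq]
    have : ((‖c 0‖ ^ 2 : ℝ) : ℂ) = c 0 * (starRingEnd ℂ) (c 0) := by
      rw [Complex.mul_conj, Complex.normSq_eq_norm_sq]
    rw [this]
    simp
    ring
  have hn : ∀ (c : Fin 3 → ℂ), (∀ j, c j ≠ 0) → ‖c 0‖ ^ 2 ≠ 0 := fun c hc =>
    pow_ne_zero _ (norm_ne_zero_iff.mpr (hc 0))
  fin_cases i
  · refine ⟨hre.contDiffOn.div hA.contDiffOn hA0, fun z hz c hc => ?_⟩
    show 2 * ((X2.act c z) 0 * (starRingEnd ℂ) ((X2.act c z) 1)).re / AA (X2.act c z) =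
      2 * (z 0 * (starRingEnd ℂ) (z 1)).re / AA z
    rw [key, Complex.re_ofReal_mul, AA_act, mul_left_comm, mul_div_mul_left _ _ (hn c hc)]
  · refine ⟨him.contDiffOn.div hA.contDiffOn hA0, fun z hz c hc => ?_⟩
    show 2 * ((X2.act c z) 0 * (starRingEnd ℂ) ((X2.act c z) 1)).im / AA (X2.act c z) =
      2 * (z 0 * (starRingEnd ℂ) (z 1)).im / AA z
    rw [key, Complex.im_ofReal_mul, AA_act, mul_left_comm, mul_div_mul_left _ _ (hn c hc)]
  · refine ⟨h3.contDiffOn.div hA.contDiffOn hA0, fun z hz c hc => ?_⟩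
    show (‖(X2.act c z) 1‖ ^ 2 - ‖(X2.act c z) 0‖ ^ 2) / AA (X2.act c z) =
      (‖z 1‖ ^ 2 - ‖z 0‖ ^ 2) / AA z
    rw [AA_act, act_eq]
    have h0 := hn c hc
    have h1 := hA0 z hz
    simp only [Matrix.cons_val_zero, Matrix.cons_val_one, norm_mul, mul_pow]
    rw [← mul_sub, mul_div_mul_left _ _ h0]

theorem inv_pol (P : MvPolynomial (Fin 3) ℝ) : InvFn (pol P) := by
  induction P using MvPolynomial.induction_on with
  | C a =>
    have : pol (MvPolynomial.C a) = fun _ => a := by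
      funext z
      simp [pol]
    rw [this]
    exact InvFn.const a
  | add p q hp hq =>
    have : pol (p + q) = fun z => pol p z + pol q z := by
      funext z
      simp [pol]
    rw [this]
    exact hp.add hq
  | mul_X p i hp =>
    have : pol (p * MvPolynomial.X i) = fun z => pol p z * xx i z := by
      funext z
      simp [pol]
    rw [this]
    exact hp.mul (inv_xx i)

/-! ## Closed forms -/

theorem one_le : (1 : WithTop ℕ∞) ≤ ((⊤ : ℕ∞) : WithTop ℕ∞) := by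
  exact_mod_cast (le_top : (1 : ℕ∞) ≤ ⊤)

theorem clo_sub {K K' : E7 → Alt 7 6} (h : Clo K) (h' : Clo K') :
    Clo (fun z => K z - K' z) := by
  refine ⟨h.1.sub h'.1, ⟨fun z hz c hc v => ?_, fun z hz v i hv => ?_⟩, fun z hz => ?_⟩
  · show K _ _ - K' _ _ = K z v - K' z v
    rw [h.2.1.1 z hz c hc v, h'.2.1.1 z hz c hc v]
  · show K z v - K' z v = 0
    rw [h.2.1.2 z hz v i hv, h'.2.1.2 z hz v i hv, sub_zero]
  · have hd : DifferentiableAt ℝ K z :=
      (h.1.differentiableOn (by norm_num)).differentiableAt (isOpen_U.mem_nhds hz)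
    have hd' : DifferentiableAt ℝ K' z :=
      (h'.1.differentiableOn (by norm_num)).differentiableAt (isOpen_U.mem_nhds hz)
    have e := h.2.2 z hz
    have e' := h'.2.2 z hz
    unfold extDeriv at e e' ⊢
    rw [fderiv_fun_sub hd hd', sub_eq_add_neg,
      ContinuousAlternatingMap.alternatizeUncurryFin_add, e, zero_add]
    have : -fderiv ℝ K' z = (-1 : ℝ) • fderiv ℝ K' z := by
      ext u v
      simp
    rw [this, ContinuousAlternatingMap.alternatizeUncurryFin_smul, e', smul_zero]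

theorem clo_smul {K : E7 → Alt 7 6} {X : E7 → ℝ} (h : Clo K) (hX : InvFn X)
    (h0 : ∀ z ∈ X2.U, K z ≠ 0 → fderiv ℝ X z = 0) : Clo (fun z => X z • K z) := by
  refine ⟨(hX.1.of_le one_le).smul h.1, ⟨fun z hz c hc v => ?_, fun z hz v i hv => ?_⟩,
    fun z hz => ?_⟩
  · show X _ • K _ _ = X z • K z v
    rw [h.2.1.1 z hz c hc v, hX.2 z hz c hc]
  · show X z • K z v = 0
    rw [h.2.1.2 z hz v i hv, smul_zero]
  · have hd : DifferentiableAt ℝ K z :=
      (h.1.differentiableOn (by norm_num)).differentiableAt (isOpen_U.mem_nhds hz)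
    have hd' : DifferentiableAt ℝ X z :=
      (hX.1.differentiableOn (by simp)).differentiableAt (isOpen_U.mem_nhds hz)
    have e := h.2.2 z hz
    unfold extDeriv at e ⊢
    rw [fderiv_fun_smul hd' hd]
    have e2 : (fderiv ℝ X z).smulRight (K z) = 0 := by
      by_cases hK : K z = 0
      · rw [hK]
        ext u v
        simp
      · rw [h0 z hz hK]
        ext u v
        simp
    rw [e2, add_zero, ContinuousAlternatingMap.alternatizeUncurryFin_smul, e, smul_zero]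

/-! ## The functional `δ` -/

/-- `tri true + tri false` -/
noncomputable def del (K : E7 → Alt 7 6) (a f g : E7 → ℝ) : ℝ := tri true K a f g + tri false K a f g

theorem del_add (h : TrsStmt) {K : E7 → Alt 7 6} (hK : Clo K) {a a' f g : E7 → ℝ} (ha : InvFn a)
    (ha' : InvFn a') (hf : InvFn f) (hg : InvFn g) :
    del K (fun z => a z + a' z) f g = del K a f g + del K a' f g := by
  unfold del
  rw [(h true K hK a a' f f g ha ha' hf hf hg).1, (h false K hK a a' f f g ha ha' hf hf hg).1]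
  ring

theorem del_zero (h : TrsStmt) {K : E7 → Alt 7 6} (hK : Clo K) {f g : E7 → ℝ}
    (hf : InvFn f) (hg : InvFn g) : del K (fun _ => 0) f g = 0 := by
  have h1 := del_add h hK (InvFn.const 0) (InvFn.const 0) hf hg
  simp only [add_zero] at h1
  linarith

theorem del_sub (h : TrsStmt) {K : E7 → Alt 7 6} (hK : Clo K) {a a' f g : E7 → ℝ} (ha : InvFn a)
    (ha' : InvFn a') (hf : InvFn f) (hg : InvFn g) :
    del K a f g = del K (fun z => a z - a' z) f g + del K a' f g := by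
  rw [← del_add h hK (ha.sub ha') ha' hf hg]
  congr 1
  funext z
  ring

theorem del_swap (h : TrsStmt) {K : E7 → Alt 7 6} (hK : Clo K) {a f g : E7 → ℝ} (ha : InvFn a)
    (hf : InvFn f) (hg : InvFn g) :
    del K a g f = - del K a f g ∧ del K f a g = - del K a f g := by
  obtain ⟨-, -, h1, h2, -⟩ := h true K hK a a f f g ha ha hf hf hg
  obtain ⟨-, -, h3, h4, -⟩ := h false K hK a a f f g ha ha hf hf hg
  unfold del
  rw [h1, h2, h3, h4]
  constructor <;> ring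

/-- the products -/
def Prd (𝕂 : Set ℝ) (a : E7 → ℝ) : Prop :=
  ∃ (χ : E7 → ℝ) (P : MvPolynomial (Fin 3) ℝ), LocC 𝕂 χ ∧ a = fun z => χ z * pol P z

theorem Prd.inv {𝕂 : Set ℝ} {a : E7 → ℝ} (h : Prd 𝕂 a) : InvFn a := by
  obtain ⟨χ, P, hχ, rfl⟩ := h
  exact hχ.1.mul (inv_pol P)

/-- the approximation step -/
theorem extend (hTrs : TrsStmt) (hApx : ApxStmt) {𝕂 : Set ℝ} (h𝕂 : IsCompact 𝕂)
    (hq : ∀ q : ℚ, (q : ℝ) ∉ 𝕂) {K : ℕ → E7 → Alt 7 6} (hK : ∀ i, Clo (K i))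
    {f g : E7 → ℝ} (hf : InvFn f) (hg : InvFn g) {D : ℝ} (hD : 0 ≤ D)
    (hB : ∀ a : E7 → ℝ, InvFn a → ∀ η : ℝ, 0 ≤ η → ∀ j : ℕ, (∀ z ∈ Nb 𝕂 j, |a z| ≤ η) →
      ∀ᶠ i in atTop, |del (K i) a f g| ≤ D * η)
    (hZ : ∀ a, Prd 𝕂 a → Tendsto (fun i => del (K i) a f g) atTop (𝓝 0)) :
    ∀ a, InvFn a → Tendsto (fun i => del (K i) a f g) atTop (𝓝 0) := by
  -- finite sums of products
  have hsum : ∀ (m : ℕ) (P : Fin m → MvPolynomial (Fin 3) ℝ) (χ : Fin m → E7 → ℝ),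
      (∀ l, LocC 𝕂 (χ l)) → ∀ s : Finset (Fin m),
      Tendsto (fun i => del (K i) (fun z => ∑ l ∈ s, χ l z * pol (P l) z) f g) atTop (𝓝 0) := by
    intro m P χ hχ s
    induction s using Finset.induction_on with
    | empty =>
      have : ∀ i, del (K i) (fun z => ∑ l ∈ (∅ : Finset (Fin m)), χ l z * pol (P l) z) f g = 0 := by
        intro i
        simp only [Finset.sum_empty]
        exact del_zero hTrs (hK i) hf hg
      simp only [this]
      exact tendsto_const_nhds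
    | insert l s hl ih =>
      have e : ∀ i, del (K i) (fun z => ∑ l ∈ insert l s, χ l z * pol (P l) z) f g =
          del (K i) (fun z => χ l z * pol (P l) z) f g +
          del (K i) (fun z => ∑ l ∈ s, χ l z * pol (P l) z) f g := by
        intro i
        simp only [Finset.sum_insert hl]
        exact del_add hTrs (hK i) ((hχ l).1.mul (inv_pol _))
          (InvFn.sum s fun l _ => (hχ l).1.mul (inv_pol _)) hf hg
      simp only [e]
      have h1 := (hZ (fun z => χ l z * pol (P l) z) ⟨χ l, P l, hχ l, rfl⟩).add ih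
      simpa using h1
  intro a ha
  rw [Metric.tendsto_atTop]
  intro ε hε
  have hη : 0 < ε / (2 * (D + 1)) := by positivity
  obtain ⟨m, P, χ, hχ, j, hj⟩ := hApx 𝕂 h𝕂 hq a ha _ hη
  have hinv : InvFn (fun z => ∑ l, χ l z * pol (P l) z) :=
    InvFn.sum Finset.univ fun l _ => (hχ l).1.mul (inv_pol _)
  have h1 := hB (fun z => a z - ∑ l, χ l z * pol (P l) z) (ha.sub hinv) _ hη.le j hj
  have h2 := hsum m P χ hχ Finset.univ
  rw [Metric.tendsto_atTop] at h2
  obtain ⟨n2, hn2⟩ := h2 (ε / 2) (by positivity)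
  obtain ⟨n1, hn1⟩ := eventually_atTop.mp h1
  refine ⟨max n1 n2, fun i hi => ?_⟩
  have h3 := hn1 i (le_trans (le_max_left _ _) hi)
  have h4 := hn2 i (le_trans (le_max_right _ _) hi)
  rw [Real.dist_eq, sub_zero] at h4 ⊢
  rw [del_sub hTrs (hK i) ha hinv hf hg]
  have h5 : D * (ε / (2 * (D + 1))) ≤ ε / 2 := by
    rw [mul_div_assoc', div_le_div_iff₀ (by positivity) (by positivity)]
    nlinarith
  calc _ ≤ _ := abs_add_le _ _
    _ < ε / 2 + ε / 2 := add_lt_add_of_le_of_lt (h3.trans h5) h4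
    _ = ε := by ring

/-! ## Products -/

theorem sig_LL (b : Bool) (χ : E7 → ℝ) (hχ : ∀ z w : E7, z 5 = w 5 → z 6 = w 6 → χ z = χ w)
    (z : E7) : χ (LL b z) = χ z := by
  cases b
  · rfl
  · apply hχ
    · show flop z 5 = z 5
      rw [flop_apply]
      rfl
    · show flop z 6 = z 6
      rw [flop_apply]
      rfl

theorem lam_smul (hW : WdgStmt) (b : Bool) (K : E7 → Alt 7 6) (η : E7 → Alt 7 2) (X : E7 → ℝ)
    (hX : ∀ z w : E7, z 5 = w 5 → z 6 = w 6 → X z = X w) :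
    Lam b K (fun z => X z • η z) = Lam b (fun z => X z • K z) η := by
  have e : lamF b K (fun z => X z • η z) = lamF b (fun z => X z • K z) η := by
    funext z
    obtain ⟨-, -, h3, -⟩ := hW 7 6 2
    unfold lamF lp
    simp only [sig_LL b X hX z]
    rw [(h3 (X z) (K z) _).1]
    rw [← (h3 (X z) (K z) _).2]
    congr 1
  unfold Lam
  rw [e]

theorem LL_false (z : E7) : LL false z = z := rfl

theorem lamF_congr (K : E7 → Alt 7 6) {η η' : E7 → Alt 7 2} {z : E7} (h : η z = η' z) :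
    lamF false K η z = lamF false K η' z := by
  unfold lamF lp
  rw [LL_false, h]

theorem chi_congr {η η' : E7 → Alt 7 8} (x : Fin 4 → ℂ) (h : η (sig x) = η' (sig x)) :
    chi η x = chi η' x := by
  unfold chi
  rw [h]

theorem lam_congr (K : E7 → Alt 7 6) {η η' : E7 → Alt 7 2} (h : ∀ z ∈ X2.U, η z = η' z) :
    Lam false K η = Lam false K η' := by
  have e : chi (lamF false K η) = chi (lamF false K η') := by
    funext x
    exact chi_congr x (lamF_congr K (h _ (sig_mem_U x)))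
  unfold Lam
  rw [e]

theorem prd_tendsto (hW : WdgStmt) (hKfm : KfmStmt) (hCmp : CmpStmt) (hPcs : PcsStmt)
    (hNbo : NboStmt) {𝕂 : Set ℝ} {T : X2.Current 1} {Kp Km : ℕ → E7 → Alt 7 6} {M : ℝ}
    (hA : Appr 𝕂 T Kp Km M)
    (hT : ∀ β : X2.Form 2, (∃ χ : E7 → ℝ, InvFn χ ∧ ∀ z ∈ X2.U, β.1 z = χ z • kH z) → T β = 0)
    {a f g : E7 → ℝ} (ha : Prd 𝕂 a) (hf : Prd 𝕂 f) (hg : Prd 𝕂 g) :
    Tendsto (fun i => del (fun z => Kp i z - Km i z) a f g) atTop (𝓝 0) := by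
  classical
  obtain ⟨χ, P, hχ, rfl⟩ := ha
  obtain ⟨χ', P', hχ', rfl⟩ := hf
  obtain ⟨χ'', P'', hχ'', rfl⟩ := hg
  obtain ⟨c, hc⟩ := hPcs P P' P''
  obtain ⟨j, hj⟩ := hχ.2.2
  obtain ⟨j', hj'⟩ := hχ'.2.2
  obtain ⟨j'', hj''⟩ := hχ''.2.2
  set J : ℕ := max j (max j' j'') with hJ
  have hJ1 : ∀ z ∈ Nb 𝕂 J, fderiv ℝ χ z = 0 := fun z hz =>
    hj z ((hNbo 𝕂 j).2.2.2 J (le_max_left _ _) hz)
  have hJ2 : ∀ z ∈ Nb 𝕂 J, fderiv ℝ χ' z = 0 := fun z hz =>
    hj' z ((hNbo 𝕂 j').2.2.2 J ((le_max_left _ _).trans (le_max_right _ _)) hz)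
  have hJ3 : ∀ z ∈ Nb 𝕂 J, fderiv ℝ χ'' z = 0 := fun z hz =>
    hj'' z ((hNbo 𝕂 j'').2.2.2 J ((le_max_right _ _).trans (le_max_right _ _)) hz)
  have hflop := (hNbo 𝕂 J).2.2.1
  have hXinv : InvFn (fun z => χ z * χ' z * χ'' z) := (hχ.1.mul hχ'.1).mul hχ''.1
  have hXy : ∀ z w : E7, z 5 = w 5 → z 6 = w 6 →
      χ z * χ' z * χ'' z = χ w * χ' w * χ'' w := fun z w h5 h6 => by
    rw [hχ.2.1 z w h5 h6, hχ'.2.1 z w h5 h6, hχ''.2.1 z w h5 h6]
  have hkH := hKfm.2.2.1 kH (by simp)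
  -- the form `X kH`
  let β : X2.Form 2 := ⟨fun z => if z ∈ X2.U then (χ z * χ' z * χ'' z) • kH z else 0, by
    refine ⟨?_, ⟨fun z hz c hc v => ?_, fun z hz v i hv => ?_⟩, fun z hz => ?_⟩
    · refine (hXinv.1.continuousOn.smul hkH.2.continuousOn).congr fun z hz => ?_
      show (if z ∈ X2.U then (χ z * χ' z * χ'' z) • kH z else 0) = _
      rw [if_pos hz]
      rfl
    · show (if X2.act c z ∈ X2.U then (χ (X2.act c z) * χ' (X2.act c z) * χ'' (X2.act c z)) •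
        kH (X2.act c z) else 0) (fun i => X2.act c (v i)) =
        (if z ∈ X2.U then (χ z * χ' z * χ'' z) • kH z else 0) v
      rw [if_pos ((act_mem_U hc z).mpr hz), if_pos hz]
      show (χ (X2.act c z) * χ' (X2.act c z) * χ'' (X2.act c z)) •
        kH (X2.act c z) (fun i => X2.act c (v i)) = (χ z * χ' z * χ'' z) • kH z v
      rw [hkH.1.1 z hz c hc v]
      have := hXinv.2 z hz c hc
      simp only at this
      rw [this]
    · show (if z ∈ X2.U then (χ z * χ' z * χ'' z) • kH z else 0) v = 0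
      rw [if_pos hz]
      show (χ z * χ' z * χ'' z) • kH z v = 0
      rw [hkH.1.2 z hz v i hv, smul_zero]
    · show (if z ∈ X2.U then (χ z * χ' z * χ'' z) • kH z else 0) = 0
      rw [if_neg hz]⟩
  have hβ : ∀ z ∈ X2.U, β.1 z = (χ z * χ' z * χ'' z) • kH z := fun z hz => if_pos hz
  have hβs : X2.Smooth β.1 := (hXinv.1.smul hkH.2).congr hβ
  have hTβ : T β = 0 := hT β ⟨_, hXinv, hβ⟩
  have h1 := (hA.conv β hβs).const_mul c
  rw [hTβ, mul_zero] at h1
  refine h1.congr' ?_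
  filter_upwards [hA.supp J] with i hi
  set K : E7 → Alt 7 6 := fun z => Kp i z - Km i z with hKdef
  have hK : Clo K := clo_sub (hA.cp i) (hA.cm i)
  have hKN : ∀ z ∈ X2.U, K z ≠ 0 → z ∈ Nb 𝕂 J := by
    intro z hz hne
    by_contra hcon
    exact hne (sub_eq_zero.mpr (hi z hz hcon))
  have hLL : ∀ (b : Bool), ∀ z ∈ U2', K z ≠ 0 → LL b z ∈ Nb 𝕂 J := by
    intro b z hz hne
    have h0 := hKN z hz.1 hne
    cases b
    · exact h0
    · exact hflop z ⟨h0, hz⟩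
  have hcond : ∀ (b : Bool), ∀ z ∈ U2', K z ≠ 0 → fderiv ℝ χ (LL b z) = 0 ∧
      fderiv ℝ χ' (LL b z) = 0 ∧ fderiv ℝ χ'' (LL b z) = 0 := fun b z hz hne =>
    ⟨hJ1 _ (hLL b z hz hne), hJ2 _ (hLL b z hz hne), hJ3 _ (hLL b z hz hne)⟩
  have e1 := hc true K hK χ χ' χ'' hχ.1 hχ'.1 hχ''.1 (hcond true)
  have e2 := hc false K hK χ χ' χ'' hχ.1 hχ'.1 hχ''.1 (hcond false)
  have hdX : ∀ z ∈ X2.U, K z ≠ 0 → fderiv ℝ (fun z => χ z * χ' z * χ'' z) z = 0 := by
    intro z hz hne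
    have hN := hKN z hz hne
    have hd : ∀ {φ : E7 → ℝ}, InvFn φ → DifferentiableAt ℝ φ z := fun h =>
      (h.1.differentiableOn (by simp)).differentiableAt (isOpen_U.mem_nhds hz)
    have g1 := (hd hχ.1).hasFDerivAt
    have g2 := (hd hχ'.1).hasFDerivAt
    have g3 := (hd hχ''.1).hasFDerivAt
    rw [hJ1 z hN] at g1
    rw [hJ2 z hN] at g2
    rw [hJ3 z hN] at g3
    have g4 := ((g1.fun_mul g2).fun_mul g3).fderiv
    rw [g4]
    simp
  have hXK : Clo (fun z => (χ z * χ' z * χ'' z) • K z) := clo_smul hK hXinv hdX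
  have e3 := hCmp _ hXK
  have e4 := lam_smul hW true K kL _ hXy
  have e5 := lam_smul hW false K kL _ hXy
  have e6 := lam_smul hW false K kH _ hXy
  have e7 : Lam false K β.1 = Lam false K (fun z => (χ z * χ' z * χ'' z) • kH z) :=
    lam_congr K hβ
  unfold del
  rw [e1, e2, e7, e6, e4, e5, e3]
  ring

/-- SFT -/
theorem sft (hWdg : WdgStmt) (_ : LinStmt) (hKfm : KfmStmt) (hCmp : CmpStmt) (hTrb : TrbStmt)
    (hTrs : TrsStmt) (hPcs : PcsStmt) (hApx : ApxStmt) (hNbo : NboStmt) : SftStmt := by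
  intro 𝕂 T Kp Km M h𝕂 hq hA hT a f g ha hf hg
  have hK : ∀ i, Clo (fun z => Kp i z - Km i z) := fun i => clo_sub (hA.cp i) (hA.cm i)
  have hbd : ∀ f g : E7 → ℝ, InvFn f → InvFn g → ∃ D : ℝ, 0 ≤ D ∧
      ∀ a : E7 → ℝ, InvFn a → ∀ η : ℝ, 0 ≤ η → ∀ j : ℕ, (∀ z ∈ Nb 𝕂 j, |a z| ≤ η) →
      ∀ᶠ i in atTop, |del (fun z => Kp i z - Km i z) a f g| ≤ D * η := by
    intro f g hf hg
    obtain ⟨C, hC, hb⟩ := hTrb f g hf hg
    refine ⟨2 * (C * |M|), by positivity, fun a ha η hη j hj => ?_⟩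
    filter_upwards [hA.supp j] with i hi
    have h1 := fun b => hb (Kp i) (Km i) M (hA.cp i) (hA.cm i) (hA.pp i) (hA.pm i) (hA.mp i)
      (hA.mm i) (Nb 𝕂 j) (hNbo 𝕂 j).2.2.1 hi a η ha (fun z hz => hj z hz.1) hη b
    have h2 : C * M * η ≤ C * |M| * η :=
      mul_le_mul_of_nonneg_right (mul_le_mul_of_nonneg_left (le_abs_self M) hC) hη
    unfold del
    calc _ ≤ _ := abs_add_le _ _
      _ ≤ C * |M| * η + C * |M| * η := add_le_add ((h1 true).trans h2) ((h1 false).trans h2)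
      _ = 2 * (C * |M|) * η := by ring
  have step1 : ∀ f g, Prd 𝕂 f → Prd 𝕂 g → ∀ a, InvFn a →
      Tendsto (fun i => del (fun z => Kp i z - Km i z) a f g) atTop (𝓝 0) := by
    intro f g hf hg
    obtain ⟨D, hD, hB⟩ := hbd f g hf.inv hg.inv
    exact extend hTrs hApx h𝕂 hq hK hf.inv hg.inv hD hB fun a ha =>
      prd_tendsto hWdg hKfm hCmp hPcs hNbo hA hT ha hf hg
  have step2 : ∀ g, Prd 𝕂 g → ∀ a f, InvFn a → InvFn f →
      Tendsto (fun i => del (fun z => Kp i z - Km i z) f a g) atTop (𝓝 0) := by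
    intro g hg a f ha hf
    obtain ⟨D, hD, hB⟩ := hbd a g ha hg.inv
    refine extend hTrs hApx h𝕂 hq hK ha hg.inv hD hB (fun f' hf' => ?_) f hf
    have h1 := (step1 f' g hf' hg a ha).neg
    rw [neg_zero] at h1
    refine h1.congr fun i => ?_
    exact ((del_swap hTrs (hK i) ha hf'.inv hg.inv).2).symm
  obtain ⟨D, hD, hB⟩ := hbd a f ha hf
  have step3 : Tendsto (fun i => del (fun z => Kp i z - Km i z) g a f) atTop (𝓝 0) := by
    refine extend hTrs hApx h𝕂 hq hK ha hf hD hB (fun g' hg' => ?_) g hg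
    have h1 := step2 g' hg' f a hf ha
    refine h1.congr fun i => ?_
    have e1 := (del_swap hTrs (hK i) ha hf hg'.inv).1
    have e2 := (del_swap hTrs (hK i) ha hg'.inv hf).2
    rw [e2, e1, neg_neg]
  refine step3.congr fun i => ?_
  have e1 := (del_swap hTrs (hK i) ha hf hg).1
  have e2 := (del_swap hTrs (hK i) ha hg hf).2
  rw [e2, e1, neg_neg]
  rfl

end Pool.Agent.SIU.H4S
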